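import Pool.Agent.helper61.CSW.W.SpecW

/-!
# csw:ENS: the energy of the differential of a cycle (class S), helper20. Model: Pool/Agent/helper20/EW/ENQE.lean.
-/

set_option autoImplicit false

open Complex Metric Set Filter Topology MeasureTheory
open YPPS (fd fdd pre TT CV IsCyc rho Exact)
open MPS (BB)
open Pool.Agent.helper98.ILF (juliaSet fatouSet)

noncomputable section

open CSS (SE SV JJ)

namespace YW

/-- the pointwise inequality. -/
theorem ENS_point (f : SE) (q : ℂ → ℂ) (z : ℂ) (hD : 0 ≤ YXPS.Df f q z) (hs : Summable fun y : pre f z => ‖q y‖ / ‖fd f y‖ ^ 2) :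
    ENNReal.ofReal (YXPS.Df f q z) + ENNReal.ofReal ‖TT f q z‖ ≤ ∑' y : pre f z, ENNReal.ofReal ‖q y‖ / ENNReal.ofReal (‖fd f y‖ ^ 2) := by
  rw [← ENNReal.ofReal_add hD (norm_nonneg _)]
  have h5 : YXPS.Df f q z + ‖TT f q z‖ = ∑' y : pre f z, ‖q y‖ / ‖fd f y‖ ^ 2 := by
    unfold YXPS.Df
    ring
  rw [h5, ENNReal.ofReal_tsum_of_nonneg (fun y => by positivity) hs]
  refine ENNReal.tsum_le_tsum fun y => ?_
  rcases (norm_nonneg (fd f y)).eq_or_lt with h6 | h6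
  · rw [← h6]
    simp
  · rw [ENNReal.ofReal_div_of_pos (by positivity)]

/-- exhaustion of the punctured plane by the sets `KE b 1 ε`. -/
theorem ENS_lim {k : ℕ} [NeZero k] (b : ZMod k → ℂ) (F : ℂ → ENNReal) {V : ENNReal} {ε₀ : ℝ} (hε₀ : 0 < ε₀)
    (h : ∀ ε : ℝ, 0 < ε → ε < ε₀ → ∫⁻ z in KE b (fun _ => 1) ε, F z ≤ V) : ∫⁻ z, F z ≤ V := by
  have hanti : ∀ r r' : ℝ, r ≤ r' → KE b (fun _ => 1) r' ⊆ KE b (fun _ => 1) r := by
    intro r r' hrr z hz i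
    have := hz i
    linarith
  have hall : ∀ m : ℕ, ∫⁻ z in KE b (fun _ => 1) (1 / ((m : ℝ) + 1)), F z ≤ V := by
    intro m
    have hpos : (0 : ℝ) < 1 / ((m : ℝ) + 1) := by positivity
    refine (lintegral_mono_set (hanti (min (1 / ((m : ℝ) + 1)) (ε₀ / 2)) _ (min_le_left _ _))).trans (h _ (lt_min hpos (by linarith)) ?_)
    exact (min_le_right _ _).trans_lt (by linarith)
  have hU : (range b)ᶜ = ⋃ m : ℕ, KE b (fun _ => 1) (1 / ((m : ℝ) + 1)) := by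
    ext z
    constructor
    · intro hz2
      have hev : ∀ᶠ m : ℕ in atTop, ∀ i : ZMod k, 1 / ((m : ℝ) + 1) < ‖z - b i‖ := by
        have hfin : Finite (ZMod k) := inferInstance
        rw [eventually_all]
        intro i
        have hpos : 0 < ‖z - b i‖ := by
          rw [norm_pos_iff, sub_ne_zero]
          intro h
          exact hz2 ⟨i, h.symm⟩
        exact (tendsto_one_div_add_atTop_nhds_zero_nat (𝕜 := ℝ)).eventually (gt_mem_nhds hpos)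
      obtain ⟨m, hm⟩ := hev.exists
      rw [mem_iUnion]
      refine ⟨m, fun i => ?_⟩
      rw [mul_one]
      exact (hm i).le
    · intro h
      rw [mem_iUnion] at h
      obtain ⟨m, hz2⟩ := h
      rintro ⟨i, rfl⟩
      have := hz2 i
      rw [sub_self, norm_zero, mul_one] at this
      have hpos : (0 : ℝ) < 1 / ((m : ℝ) + 1) := by positivity
      linarith
  have hdir : Directed (· ⊆ ·) (fun m : ℕ => KE b (fun _ => 1) (1 / ((m : ℝ) + 1))) := by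
    apply Monotone.directed_le
    intro m m' hmm
    refine hanti _ _ ?_
    gcongr
  have h1 : ∫⁻ z, F z = ∫⁻ z in (range b)ᶜ, F z := by
    rw [← setLIntegral_univ]
    refine setLIntegral_congr ?_
    have hnull : volume (range b) = 0 := (finite_range b).measure_zero _
    exact (eventuallyEq_univ.mpr (compl_mem_ae_iff.mpr hnull)).symm
  rw [h1, hU, setLIntegral_iUnion_of_directed F hdir]
  exact iSup_le hall

/-- one stage. -/
theorem ENS_step (hMCV : YPPS.MCV_stmt) (f : SE) (q R : ℂ → ℂ) (K K' : Set ℂ) (hK' : K' = {y : ℂ | f.eval y ∈ K}) (hK : MeasurableSet K)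
    (hq : Measurable q) (hT : Measurable (TT f q)) (hDm : Measurable (YXPS.Df f q)) (hD : ∀ z, 0 ≤ YXPS.Df f q z)
    (hs : ∀ z, Summable fun y : pre f z => ‖q y‖ / ‖fd f y‖ ^ 2) (hR : Integrable R) (he : ∀ᵐ z : ℂ, TT f q z - q z = R z)
    (hqK : IntegrableOn q K) (hqK' : IntegrableOn q K') :
    0 ≤ (∫ z in K', ‖q z‖) - (∫ z in K, ‖q z‖) + ∫ z : ℂ, ‖R z‖ ∧
    ∫⁻ z in K, ENNReal.ofReal (YXPS.Df f q z) ≤ ENNReal.ofReal ((∫ z in K', ‖q z‖) - (∫ z in K, ‖q z‖) + ∫ z : ℂ, ‖R z‖) := by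
  have e1 : ∫⁻ z in K, ENNReal.ofReal ‖q z‖ = ENNReal.ofReal (∫ z in K, ‖q z‖) :=
    (ofReal_integral_eq_lintegral_ofReal hqK.norm (Eventually.of_forall fun z => norm_nonneg _)).symm
  have e2 : ∫⁻ z in K', ENNReal.ofReal ‖q z‖ = ENNReal.ofReal (∫ z in K', ‖q z‖) :=
    (ofReal_integral_eq_lintegral_ofReal hqK'.norm (Eventually.of_forall fun z => norm_nonneg _)).symm
  have e3 : ∫⁻ z : ℂ, ENNReal.ofReal ‖R z‖ = ENNReal.ofReal (∫ z : ℂ, ‖R z‖) :=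
    (ofReal_integral_eq_lintegral_ofReal hR.norm (Eventually.of_forall fun z => norm_nonneg _)).symm
  have hA0 : 0 ≤ ∫ z in K, ‖q z‖ := integral_nonneg fun z => norm_nonneg _
  have hB0 : 0 ≤ ∫ z in K', ‖q z‖ := integral_nonneg fun z => norm_nonneg _
  have hI0 : 0 ≤ ∫ z : ℂ, ‖R z‖ := integral_nonneg fun z => norm_nonneg _
  have h1 : (∫⁻ z in K, ENNReal.ofReal (YXPS.Df f q z)) + ∫⁻ z in K, ENNReal.ofReal ‖TT f q z‖ ≤ ∫⁻ z in K', ENNReal.ofReal ‖q z‖ := by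
    rw [← lintegral_add_left hDm.ennreal_ofReal, hK', ← hMCV f (fun z => ENNReal.ofReal ‖q z‖) K hq.norm.ennreal_ofReal hK]
    exact lintegral_mono fun z => ENS_point f q z (hD z) (hs z)
  have h2 : ∫⁻ z in K, ENNReal.ofReal ‖q z‖ ≤ (∫⁻ z in K, ENNReal.ofReal ‖TT f q z‖) + ∫⁻ z : ℂ, ENNReal.ofReal ‖R z‖ := by
    have h3 : ∫⁻ z in K, ENNReal.ofReal ‖q z‖ ≤ ∫⁻ z in K, (ENNReal.ofReal ‖TT f q z‖ + ENNReal.ofReal ‖R z‖) := by
      refine lintegral_mono_ae ?_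
      filter_upwards [ae_restrict_of_ae he] with z hz
      rw [← ENNReal.ofReal_add (norm_nonneg _) (norm_nonneg _)]
      apply ENNReal.ofReal_le_ofReal
      have h4 : q z = TT f q z - R z := by rw [← hz]; ring
      calc ‖q z‖ = ‖TT f q z - R z‖ := by rw [← h4]
        _ ≤ ‖TT f q z‖ + ‖R z‖ := norm_sub_le _ _
    refine h3.trans ?_
    rw [lintegral_add_left hT.norm.ennreal_ofReal]
    gcongr
    exact Measure.restrict_le_self
  have h5 : (∫⁻ z in K, ENNReal.ofReal (YXPS.Df f q z)) + ENNReal.ofReal (∫ z in K, ‖q z‖) ≤ ENNReal.ofReal ((∫ z in K', ‖q z‖) + ∫ z : ℂ, ‖R z‖) := by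
    rw [ENNReal.ofReal_add hB0 hI0, ← e1, ← e2, ← e3]
    calc (∫⁻ z in K, ENNReal.ofReal (YXPS.Df f q z)) + ∫⁻ z in K, ENNReal.ofReal ‖q z‖
        ≤ (∫⁻ z in K, ENNReal.ofReal (YXPS.Df f q z)) + ((∫⁻ z in K, ENNReal.ofReal ‖TT f q z‖) + ∫⁻ z : ℂ, ENNReal.ofReal ‖R z‖) := by gcongr
      _ = ((∫⁻ z in K, ENNReal.ofReal (YXPS.Df f q z)) + ∫⁻ z in K, ENNReal.ofReal ‖TT f q z‖) + ∫⁻ z : ℂ, ENNReal.ofReal ‖R z‖ := by rw [add_assoc]
      _ ≤ _ := by gcongr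
  constructor
  · have h6 : ENNReal.ofReal (∫ z in K, ‖q z‖) ≤ ENNReal.ofReal ((∫ z in K', ‖q z‖) + ∫ z : ℂ, ‖R z‖) := le_add_self.trans h5
    rw [ENNReal.ofReal_le_ofReal_iff (by positivity)] at h6
    linarith
  · have h7 : (∫ z in K', ‖q z‖) - (∫ z in K, ‖q z‖) + ∫ z : ℂ, ‖R z‖ = ((∫ z in K', ‖q z‖) + ∫ z : ℂ, ‖R z‖) - ∫ z in K, ‖q z‖ := by ring
    rw [h7, ENNReal.ofReal_sub _ hA0]
    exact ENNReal.le_sub_of_add_le_right ENNReal.ofReal_ne_top h5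

theorem ENS (hLIM : LIM_stmt) (hQIN : QIN_stmt) (hMCV : YPPS.MCV_stmt) (hSMB : YPPS.SMB_stmt) (hMIX : YXPS.MIX_stmt) (hTRC : CSS.TRC_stmt) : ENS_stmt := by
  intro f X k hk b g c₁ c₂ c hCQ hRC
  obtain ⟨-, hAD, hQ⟩ := hQIN f X k b g c₁ c₂ hCQ
  set q : ℂ → ℂ := qc X b g c₁ c₂ with hq
  obtain ⟨hqm, hTm, hem, hDm, hD⟩ := hMIX f _ q hAD
  have hR : Integrable (fun z : ℂ => RS (ES f X) c z) := by
    have h1 := hTRC ℂ (ES f X) c (fun e => e) hRC.mz.1 hRC.mz.2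
    exact h1
  have hs : ∀ z, Summable fun y : pre f z => ‖q y‖ / ‖fd f y‖ ^ 2 := fun z => (hSMB f q hAD.dec z).2
  set I : ℝ := ∫ z : ℂ, ‖RS (ES f X) c z‖ with hI
  have hI0 : 0 ≤ I := integral_nonneg fun z => norm_nonneg _
  set V : ℝ := 2 * Real.pi * Real.log ‖rho f b‖ + I with hV
  have hmain : ∀ τ > (0 : ℝ), 0 ≤ V + τ ∧ ∫⁻ z, ENNReal.ofReal (YXPS.Df f q z) ≤ ENNReal.ofReal (V + τ) := by
    intro τ hτ
    obtain ⟨-, ε₀, hε₀, hlim⟩ := hLIM f X k b g c₁ c₂ hCQ (fun _ => 1) (fun _ => one_pos) τ hτ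
    have hst : ∀ ε : ℝ, 0 < ε → ε < ε₀ → 0 ≤ V + τ ∧ ∫⁻ z in KE b (fun _ => 1) ε, ENNReal.ofReal (YXPS.Df f q z) ≤ ENNReal.ofReal (V + τ) := by
      intro ε hε hε2
      obtain ⟨m1, m2, i1, i2⟩ := hQ (fun _ => 1) (fun _ => one_pos) ε hε
      have h1 := ENS_step hMCV f q (fun z => RS (ES f X) c z) (KE b (fun _ => 1) ε) (FKE f b (fun _ => 1) ε) rfl m1 hqm hTm hDm hD hs hR hRC.eq i1 i2
      have h2 := hlim ε hε hε2
      rw [← hq] at h2
      refine ⟨by linarith [h1.1], h1.2.trans (ENNReal.ofReal_le_ofReal ?_)⟩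
      linarith
    exact ⟨(hst (ε₀ / 2) (by positivity) (by linarith)).1, ENS_lim b _ hε₀ (fun ε h1 h2 => (hst ε h1 h2).2)⟩
  have hV0 : 0 ≤ V := by
    by_contra hneg
    push Not at hneg
    have := (hmain (-V / 2) (by linarith)).1
    linarith
  have hDint : ∫⁻ z, ENNReal.ofReal (YXPS.Df f q z) ≤ ENNReal.ofReal V := by
    refine ge_of_tendsto (x := 𝓝[>] (0 : ℝ)) (f := fun τ : ℝ => ENNReal.ofReal (V + τ)) ?_ ?_
    · have h1 : Tendsto (fun τ : ℝ => V + τ) (𝓝 0) (𝓝 (V + 0)) := tendsto_const_nhds.add tendsto_id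
      rw [add_zero] at h1
      exact (ENNReal.continuous_ofReal.tendsto _).comp (h1.mono_left nhdsWithin_le_nhds)
    · filter_upwards [self_mem_nhdsWithin] with τ hτ
      exact (hmain τ hτ).2
  have htot : (∫⁻ z : ℂ, ENNReal.ofReal (YXPS.Df f q z + 2 * ‖YXPS.er f q z‖)) ≤ ENNReal.ofReal (2 * Real.pi * Real.log ‖rho f b‖ + 3 * I) := by
    have h1 : ∫⁻ z : ℂ, ENNReal.ofReal (YXPS.Df f q z + 2 * ‖YXPS.er f q z‖) = ∫⁻ z : ℂ, (ENNReal.ofReal (YXPS.Df f q z) + ENNReal.ofReal (2 * ‖RS (ES f X) c z‖)) := by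
      refine lintegral_congr_ae ?_
      filter_upwards [hRC.eq] with z hz
      rw [← ENNReal.ofReal_add (hD z) (by positivity)]
      congr 3
      unfold YXPS.er
      rw [← hz, ← norm_neg, neg_sub]
    rw [h1, lintegral_add_left hDm.ennreal_ofReal]
    have h2 : ∫⁻ z : ℂ, ENNReal.ofReal (2 * ‖RS (ES f X) c z‖) = ENNReal.ofReal (2 * I) := by
      rw [← ofReal_integral_eq_lintegral_ofReal (hR.norm.const_mul 2) (Eventually.of_forall fun z => by positivity), integral_const_mul]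
    rw [h2]
    have h3 : 2 * Real.pi * Real.log ‖rho f b‖ + 3 * I = V + 2 * I := by rw [hV]; ring
    rw [h3, ENNReal.ofReal_add hV0 (by positivity)]
    gcongr
  refine ⟨hV0, htot, ?_⟩
  intro E₀ rad hE hE2
  refine ⟨f.two_le_natDegree, rfl, hAD, hE, ?_⟩
  rw [setLIntegral_univ]
  exact htot.trans (ENNReal.ofReal_le_ofReal hE2)

end YW
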