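import Pool.Agent.helper61.CSW.W.SpecW

/-!
# Project csw: (MP_70a088_an), row GDU: duality
-/

set_option autoImplicit false

open Complex Metric Set Filter Topology MeasureTheory
open YPPS (fd fdd pre TT CV IsCyc rho Exact)
open MPS (BB)
open Pool.Agent.helper98.ILF (juliaSet fatouSet)

noncomputable section

open CSS (SE SV JJ)

namespace YW

theorem GDU_db {w : ℂ → ℂ} (hw : ContDiff ℝ 1 w) (hs : HasCompactSupport w) :
    Continuous (BR.dbar w) ∧ ∃ C : ℝ, ∀ z, ‖BR.dbar w z‖ ≤ C := by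
  have h1 := hw.continuous_fderiv one_ne_zero
  have hdc : Continuous (BR.dbar w) := by
    unfold BR.dbar
    exact ((h1.clm_apply continuous_const).add
      (continuous_const.mul (h1.clm_apply continuous_const))).div_const 2
  refine ⟨hdc, ?_⟩
  have h2 : HasCompactSupport (fderiv ℝ w) := hs.fderiv (𝕜 := ℝ)
  have h3 : HasCompactSupport (BR.dbar w) := by
    refine h2.mono' ?_
    intro z hz
    by_contra hz2
    refine hz ?_
    have h4 : fderiv ℝ w z = 0 := image_eq_zero_of_notMem_tsupport hz2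
    simp [BR.dbar, h4]
  obtain ⟨C, hC⟩ := h3.exists_bound_of_continuous hdc
  exact ⟨C, hC⟩

theorem GDU (hTIN : CSS.TIN_stmt) : GDU_stmt := by
  intro f E μ w B hF hB
  obtain ⟨hdc, C, hC⟩ := GDU_db hF.wc hF.ws
  obtain ⟨-, -, -, h4⟩ := hTIN f B hB
  have h5 := h4 μ 1 hF.meas hF.bd
  have i1 : Integrable (fun z : ℂ => μ z * B z) :=
    hB.bdd_mul (c := 1) hF.meas.aestronglyMeasurable (Eventually.of_forall hF.bd)
  have i2 : Integrable (fun z : ℂ => BR.dbar w z * B z) :=
    hB.bdd_mul (c := C) hdc.aestronglyMeasurable (Eventually.of_forall hC)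
  have h6 : ∫ y : ℂ, μ (f.eval y) * ((starRingEnd ℂ) (fd f y) / fd f y) * B y =
      ∫ y : ℂ, (μ y * B y + 1 / (Real.pi : ℂ) * (BR.dbar w y * B y)) := by
    refine integral_congr_ae ?_
    filter_upwards [hF.inv] with y hy
    have h7 : μ (f.eval y) * ((starRingEnd ℂ) (fd f y) / fd f y) =
        μ y + 1 / (Real.pi : ℂ) * BR.dbar w y := by
      rw [← hy, mul_div_assoc]
    rw [h7]
    ring
  have h8 : ∫ z : ℂ, μ z * TT f B z =
      ∫ y : ℂ, μ (f.eval y) * ((starRingEnd ℂ) (fd f y) / fd f y) * B y := h5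
  rw [h8, h6, integral_add i1 (i2.const_mul _), integral_const_mul]

end YW
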